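import Mathlib

/-!
A smooth intersection of two quadrics in characteristic two.
-/

set_option autoImplicit false

open MvPolynomial

namespace Pool.Agent.X99.TQ

variable {k : Type*} [Field k]

/-- the first form -/
noncomputable def fF (a : Fin 6 → k) (c : k) : MvPolynomial (Fin 6) k :=
  ∑ i, C (a i) * X i ^ 2 + C c * (X 0 * X 1 + X 2 * X 3 + X 4 * X 5)

/-- the second form -/
noncomputable def gF (a : Fin 6 → k) (c : k) : MvPolynomial (Fin 6) k :=
  X 0 ^ 2 + (C (a 2) * X 2 ^ 2 + C c * (X 2 * X 3) + C (a 3) * X 3 ^ 2 + X 2 ^ 2) +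
    (C c * (C (a 4) * X 4 ^ 2 + C c * (X 4 * X 5) + C (a 5) * X 5 ^ 2) + X 4 ^ 2)

theorem fF_hom (a : Fin 6 → k) (c : k) : (fF a c).IsHomogeneous 2 := by
  have h1 : ∀ (b : k) (i : Fin 6), (C b * X i ^ 2 : MvPolynomial (Fin 6) k).IsHomogeneous 2 := by
    intro b i
    have := (isHomogeneous_C (Fin 6) b).mul ((isHomogeneous_X k i).pow 2)
    simpa using this
  have h2 : ∀ (i j : Fin 6), (X i * X j : MvPolynomial (Fin 6) k).IsHomogeneous 2 := by
    intro i j
    exact (isHomogeneous_X k i).mul (isHomogeneous_X k j)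
  unfold fF
  refine (IsHomogeneous.sum _ _ _ fun i _ => h1 _ _).add ?_
  have := (isHomogeneous_C (Fin 6) c).mul (((h2 0 1).add (h2 2 3)).add (h2 4 5))
  simpa using this

theorem gF_hom (a : Fin 6 → k) (c : k) : (gF a c).IsHomogeneous 2 := by
  have h1 : ∀ (b : k) (i : Fin 6), (C b * X i ^ 2 : MvPolynomial (Fin 6) k).IsHomogeneous 2 := by
    intro b i
    have := (isHomogeneous_C (Fin 6) b).mul ((isHomogeneous_X k i).pow 2)
    simpa using this
  have h2 : ∀ (b : k) (i j : Fin 6), (C b * (X i * X j) : MvPolynomial (Fin 6) k).IsHomogeneous 2 := by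
    intro b i j
    have := (isHomogeneous_C (Fin 6) b).mul ((isHomogeneous_X k i).mul (isHomogeneous_X k j))
    simpa using this
  have h3 : ∀ (i : Fin 6), (X i ^ 2 : MvPolynomial (Fin 6) k).IsHomogeneous 2 := by
    intro i
    simpa using (isHomogeneous_X k i).pow 2
  unfold gF
  refine ((h3 0).add ((((h1 _ 2).add (h2 _ 2 3)).add (h1 _ 3)).add (h3 2))).add ?_
  refine IsHomogeneous.add ?_ (h3 4)
  have := (isHomogeneous_C (Fin 6) c).mul (((h1 (a 4) 4).add (h2 c 4 5)).add (h1 (a 5) 5))
  simpa using this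

variable {L : Type*} [Field L] [Algebra k L] [CharP L 2]

theorem aeval_fF (a : Fin 6 → k) (c : k) (x : Fin 6 → L) :
    aeval x (fF a c) = ∑ i, algebraMap k L (a i) * x i ^ 2 +
      algebraMap k L c * (x 0 * x 1 + x 2 * x 3 + x 4 * x 5) := by
  simp [fF]

theorem aeval_gF (a : Fin 6 → k) (c : k) (x : Fin 6 → L) :
    aeval x (gF a c) = x 0 ^ 2 + (algebraMap k L (a 2) * x 2 ^ 2 +
      algebraMap k L c * (x 2 * x 3) + algebraMap k L (a 3) * x 3 ^ 2 + x 2 ^ 2) +
      (algebraMap k L c * (algebraMap k L (a 4) * x 4 ^ 2 + algebraMap k L c * (x 4 * x 5) +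
        algebraMap k L (a 5) * x 5 ^ 2) + x 4 ^ 2) := by
  simp [gF]

/-- the partial derivatives of the first form -/
theorem df (a : Fin 6 → k) (c : k) (x : Fin 6 → L) :
    (fun i => aeval x (pderiv i (fF a c))) =
      ![algebraMap k L c * x 1, algebraMap k L c * x 0, algebraMap k L c * x 3,
        algebraMap k L c * x 2, algebraMap k L c * x 5, algebraMap k L c * x 4] := by
  have h2 : (2 : L) = 0 := CharTwo.two_eq_zero
  funext i
  fin_cases i <;>
    simp [fF, Fin.sum_univ_six, pderiv_X, Pi.single_apply, h2]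

/-- the partial derivatives of the second form -/
theorem dg (a : Fin 6 → k) (c : k) (x : Fin 6 → L) :
    (fun i => aeval x (pderiv i (gF a c))) =
      ![0, 0, algebraMap k L c * x 3, algebraMap k L c * x 2,
        algebraMap k L c * (algebraMap k L c * x 5), algebraMap k L c * (algebraMap k L c * x 4)] := by
  have h2 : (2 : L) = 0 := CharTwo.two_eq_zero
  funext i
  fin_cases i <;>
    simp [gF, pderiv_X, Pi.single_apply, h2]

/-- **the intersection is smooth** -/
theorem smooth (a : Fin 6 → k) (c : k) (h1 : a 1 ≠ 0) (h3 : a 3 ≠ 0) (h5 : a 5 ≠ 0) (hc : c ≠ 0)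
    (hc1 : c ≠ 1) (x : Fin 6 → L) (hx : x ≠ 0) (hf : aeval x (fF a c) = 0)
    (hg : aeval x (gF a c) = 0) :
    LinearIndependent L ![fun i => aeval x (pderiv i (fF a c)),
      fun i => aeval x (pderiv i (gF a c))] := by
  rw [df, dg, LinearIndependent.pair_iff]
  rw [aeval_fF, Fin.sum_univ_six] at hf
  rw [aeval_gF] at hg
  have hmap : ∀ {b : k}, b ≠ 0 → algebraMap k L b ≠ 0 := fun hb =>
    (map_ne_zero_iff _ (algebraMap k L).injective).2 hb
  obtain ⟨C', hC⟩ : ∃ C' : L, C' = algebraMap k L c := ⟨_, rfl⟩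
  have hC0 : C' ≠ 0 := hC ▸ hmap hc
  have hC1 : C' ≠ 1 := by
    rw [hC]
    intro h
    apply hc1
    apply (algebraMap k L).injective
    rw [h, map_one]
  have hA1 := hmap h1
  have hA3 := hmap h3
  have hA5 := hmap h5
  rw [← hC] at hf hg ⊢
  intro s t hst
  have e0 : s * (C' * x 1) = 0 := by simpa using congrFun hst 0
  have e1 : s * (C' * x 0) = 0 := by simpa using congrFun hst 1
  have e2 : s * (C' * x 3) + t * (C' * x 3) = 0 := by simpa using congrFun hst 2
  have e3 : s * (C' * x 2) + t * (C' * x 2) = 0 := by simpa using congrFun hst 3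
  have e4 : s * (C' * x 5) + t * (C' * (C' * x 5)) = 0 := by simpa using congrFun hst 4
  have e5 : s * (C' * x 4) + t * (C' * (C' * x 4)) = 0 := by simpa using congrFun hst 5
  by_contra hne
  apply hx
  have fin : x 0 = 0 → x 1 = 0 → x 2 = 0 → x 3 = 0 → x 4 = 0 → x 5 = 0 → x = 0 := by
    intro g0 g1 g2 g3 g4 g5
    funext i
    fin_cases i <;> assumption
  have k2 : (s + t) ≠ 0 → x 2 = 0 ∧ x 3 = 0 := by
    intro h
    constructor
    · have : (s + t) * C' * x 2 = 0 := by linear_combination e3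
      simpa [h, hC0] using this
    · have : (s + t) * C' * x 3 = 0 := by linear_combination e2
      simpa [h, hC0] using this
  have k4 : (s + t * C') ≠ 0 → x 4 = 0 ∧ x 5 = 0 := by
    intro h
    constructor
    · have : (s + t * C') * C' * x 4 = 0 := by linear_combination e5
      simpa [h, hC0] using this
    · have : (s + t * C') * C' * x 5 = 0 := by linear_combination e4
      simpa [h, hC0] using this
  by_cases hs : s = 0
  · have ht : t ≠ 0 := fun h => hne ⟨hs, h⟩
    obtain ⟨g2, g3⟩ := k2 (by rw [hs, zero_add]; exact ht)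
    obtain ⟨g4, g5⟩ := k4 (by rw [hs, zero_add]; exact mul_ne_zero ht hC0)
    rw [g2, g3, g4, g5] at hf hg
    have g0 : x 0 = 0 := by simpa using hg
    rw [g0] at hf
    have g1 : x 1 = 0 := by simpa [hA1] using hf
    exact fin g0 g1 g2 g3 g4 g5
  · have g0 : x 0 = 0 := by simpa [hs, hC0] using e1
    have g1 : x 1 = 0 := by simpa [hs, hC0] using e0
    by_cases hst' : s + t = 0
    · have h45 : s + t * C' ≠ 0 := by
        intro h
        have h6 : t * (C' - 1) = 0 := by linear_combination h - hst'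
        rcases mul_eq_zero.1 h6 with h7 | h7
        · apply hs
          rw [h7, add_zero] at hst'
          exact hst'
        · exact hC1 (sub_eq_zero.1 h7)
      obtain ⟨g4, g5⟩ := k4 h45
      rw [g0, g1, g4, g5] at hf
      rw [g0, g4, g5] at hg
      have g2 : x 2 = 0 := by
        have : x 2 ^ 2 = 0 := by linear_combination hg - hf
        simpa using this
      rw [g2] at hf
      have g3 : x 3 = 0 := by simpa [hA3] using hf
      exact fin g0 g1 g2 g3 g4 g5
    · obtain ⟨g2, g3⟩ := k2 hst'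
      by_cases h45 : s + t * C' = 0
      · rw [g0, g1, g2, g3] at hf
        rw [g0, g2, g3] at hg
        have g4 : x 4 = 0 := by
          have : x 4 ^ 2 = 0 := by linear_combination hg - C' * hf
          simpa using this
        rw [g4] at hf
        have g5 : x 5 = 0 := by simpa [hA5] using hf
        exact fin g0 g1 g2 g3 g4 g5
      · obtain ⟨g4, g5⟩ := k4 h45
        exact fin g0 g1 g2 g3 g4 g5

end Pool.Agent.X99.TQ
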