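import Pool.Agent.Helper346.Cd.Defs

/-!
The absolute Galois group of a field of characteristic two with a separable quadratic polynomial
without root does not have cohomological dimension zero.
-/

set_option autoImplicit false

open Pool.Agent.Helper346.Cd

namespace Pool.Agent.X99.TQ

/-- the cohomological dimension of `G` is zero: `H^q(G, M) = 0` for all `q ≥ 1` and all discrete
torsion `G`-modules `M` -/
def CdZero (G : Type) [Group G] [TopologicalSpace G] : Prop :=
  ∀ (M : Type) [AddCommGroup M] [DistribMulAction G M], IsDiscreteModule G M →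
    (∀ m : M, IsOfFinAddOrder m) → ∀ q : ℕ, HSuccVanishes G M q

/-- the trivial action -/
@[reducible] def trivAct (G : Type) [Group G] : DistribMulAction G (ZMod 2) where
  smul := fun _ x => x
  one_smul := fun _ => rfl
  mul_smul := fun _ _ _ => rfl
  smul_zero := fun _ => rfl
  smul_add := fun _ _ _ => rfl

theorem not_cdZero_of_hom {G : Type} [Group G] [TopologicalSpace G] (φ : G → ZMod 2)
    (hφ : ∀ σ τ, φ (σ * τ) = φ σ + φ τ) (hc : IsLocallyConstant φ) {σ₀ : G} (h0 : φ σ₀ ≠ 0) :
    ¬ CdZero G := by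
  intro h
  let _ := trivAct G
  have hsm : ∀ (g : G) (x : ZMod 2), g • x = x := fun _ _ => rfl
  have hdisc : IsDiscreteModule G (ZMod 2) := by
    intro m
    have : {g : G | g • m = m} = Set.univ := by
      ext g
      simp [hsm]
    rw [this]
    exact isOpen_univ
  have htor : ∀ m : ZMod 2, IsOfFinAddOrder m := fun m => isOfFinAddOrder_of_finite m
  have hv := h (ZMod 2) hdisc htor 0
  have hφ1 : φ 1 = 0 := by
    have := hφ 1 1
    rw [mul_one] at this
    exact left_eq_add.1 this
  let f : (Fin 2 → G) → ZMod 2 := fun x => φ (x 1) - φ (x 0)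
  have hfc : IsCochain 1 f := by
    constructor
    · have e1 : IsLocallyConstant fun x : Fin 2 → G => φ (x 1) := hc.comp_continuous (continuous_apply 1)
      have e0 : IsLocallyConstant fun x : Fin 2 → G => φ (x 0) := hc.comp_continuous (continuous_apply 0)
      exact e1.sub e0
    · intro g x
      rw [hsm]
      show φ (g * x 1) - φ (g * x 0) = φ (x 1) - φ (x 0)
      rw [hφ, hφ]
      ring
  have hfd : diff 1 f = 0 := by
    funext x
    show ∑ j : Fin 3, (-1 : ℤ) ^ (j : ℕ) • f (fun i => x (j.succAbove i)) = 0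
    rw [Fin.sum_univ_three]
    have e0 : ((0 : Fin 3).succAbove (0 : Fin 2)) = 1 := rfl
    have e1 : ((0 : Fin 3).succAbove (1 : Fin 2)) = 2 := rfl
    have e2 : ((1 : Fin 3).succAbove (0 : Fin 2)) = 0 := rfl
    have e3 : ((1 : Fin 3).succAbove (1 : Fin 2)) = 2 := rfl
    have e4 : ((2 : Fin 3).succAbove (0 : Fin 2)) = 0 := rfl
    have e5 : ((2 : Fin 3).succAbove (1 : Fin 2)) = 1 := rfl
    simp only [f, e0, e1, e2, e3, e4, e5]
    simp
  obtain ⟨g, ⟨-, hg1⟩, hg2⟩ := hv f hfc hfd
  have hgc : ∀ x : Fin 1 → G, g x = g fun _ => 1 := by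
    intro x
    have := hg1 (x 0) (fun _ => 1)
    rw [hsm] at this
    rw [← this]
    congr 1
    funext i
    have : i = 0 := Subsingleton.elim _ _
    rw [this, mul_one]
  have h1 := congrFun hg2 ![1, σ₀]
  have h2 : diff 0 g ![1, σ₀] = 0 := by
    show ∑ j : Fin 2, (-1 : ℤ) ^ (j : ℕ) • g (fun i => (![1, σ₀] : Fin 2 → G) (j.succAbove i)) = 0
    rw [Fin.sum_univ_two, hgc (fun i => (![1, σ₀] : Fin 2 → G) ((0 : Fin 2).succAbove i)),
      hgc (fun i => (![1, σ₀] : Fin 2 → G) ((1 : Fin 2).succAbove i))]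
    simp
    exact CharTwo.add_self_eq_zero _
  rw [h2] at h1
  have h3 : f ![1, σ₀] = φ σ₀ := by
    show φ ((![1, σ₀] : Fin 2 → G) 1) - φ ((![1, σ₀] : Fin 2 → G) 0) = φ σ₀
    simp [hφ1]
  rw [h3] at h1
  exact h0 h1.symm

theorem not_cdZero {k : Type} [Field k] [CharP k 2] (a c b : k) (hc : c ≠ 0)
    (h : ∀ x y : k, a * x ^ 2 + c * (x * y) + b * y ^ 2 = 0 → x = 0 ∧ y = 0) :
    ¬ CdZero Gal(SeparableClosure k/k) := by
  have ha : a ≠ 0 := by
    intro ha
    have := h 1 0 (by rw [ha]; ring)
    exact one_ne_zero this.1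
  have : CharP (SeparableClosure k) 2 :=
    charP_of_injective_algebraMap (algebraMap k (SeparableClosure k)).injective 2
  have h2 : (2 : SeparableClosure k) = 0 := CharTwo.two_eq_zero
  have h2k : (2 : k) = 0 := CharTwo.two_eq_zero
  let q : Polynomial k := Polynomial.C a * Polynomial.X ^ 2 + Polynomial.C c * Polynomial.X +
    Polynomial.C b
  have hdeg : q.degree = 2 := Polynomial.degree_quadratic ha
  have hder : Polynomial.derivative q = Polynomial.C c := by
    simp only [q, Polynomial.derivative_add, Polynomial.derivative_mul, Polynomial.derivative_C,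
      Polynomial.derivative_X_pow, Polynomial.derivative_X]
    simp [h2k]
  have hsep : q.Separable := by
    unfold Polynomial.Separable
    rw [hder]
    exact ⟨0, Polynomial.C c⁻¹, by
      rw [zero_mul, zero_add, ← Polynomial.C_mul, inv_mul_cancel₀ hc, Polynomial.C_1]⟩
  obtain ⟨θ, hθ⟩ := IsSepClosed.exists_aeval_eq_zero (SeparableClosure k) q
    (by rw [hdeg]; norm_num) hsep
  have hθ' : algebraMap k (SeparableClosure k) a * θ ^ 2 + algebraMap k (SeparableClosure k) c * θ +
      algebraMap k (SeparableClosure k) b = 0 := by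
    simpa [q] using hθ
  have hA : algebraMap k (SeparableClosure k) a ≠ 0 :=
    (map_ne_zero_iff _ (algebraMap k (SeparableClosure k)).injective).2 ha
  have hC : algebraMap k (SeparableClosure k) c ≠ 0 :=
    (map_ne_zero_iff _ (algebraMap k (SeparableClosure k)).injective).2 hc
  obtain ⟨δ, hδ⟩ : ∃ δ : k, δ = c / a := ⟨_, rfl⟩
  have hδ0 : δ ≠ 0 := hδ ▸ div_ne_zero hc ha
  have hδ' : algebraMap k (SeparableClosure k) δ ≠ 0 :=
    (map_ne_zero_iff _ (algebraMap k (SeparableClosure k)).injective).2 hδ0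
  have hAδ : algebraMap k (SeparableClosure k) a * algebraMap k (SeparableClosure k) δ =
      algebraMap k (SeparableClosure k) c := by
    rw [← map_mul, hδ]
    congr 1
    field_simp
  -- the conjugates
  have hconj : ∀ σ : Gal(SeparableClosure k/k), σ θ = θ ∨
      σ θ = θ + algebraMap k (SeparableClosure k) δ := by
    intro σ
    have e1 : algebraMap k (SeparableClosure k) a * (σ θ) ^ 2 +
        algebraMap k (SeparableClosure k) c * σ θ + algebraMap k (SeparableClosure k) b = 0 := by
      have := congrArg σ hθ'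
      simpa using this
    have e2 : algebraMap k (SeparableClosure k) a * ((σ θ - θ) *
        (σ θ - (θ + algebraMap k (SeparableClosure k) δ))) = 0 := by
      have e3 : algebraMap k (SeparableClosure k) a * ((σ θ - θ) *
        (σ θ - (θ + algebraMap k (SeparableClosure k) δ))) =
        algebraMap k (SeparableClosure k) a * (σ θ) ^ 2 + algebraMap k (SeparableClosure k) a * θ ^ 2
          - 2 * (algebraMap k (SeparableClosure k) a * θ * σ θ) -
          (algebraMap k (SeparableClosure k) a * algebraMap k (SeparableClosure k) δ) * (σ θ - θ) := by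
        ring
      rw [e3, hAδ]
      linear_combination e1 + hθ' - (algebraMap k (SeparableClosure k) a * θ * σ θ +
        algebraMap k (SeparableClosure k) c * σ θ + algebraMap k (SeparableClosure k) b) * h2
    rcases mul_eq_zero.1 e2 with e4 | e4
    · exact absurd e4 hA
    · rcases mul_eq_zero.1 e4 with e5 | e5
      · exact Or.inl (sub_eq_zero.1 e5)
      · exact Or.inr (sub_eq_zero.1 e5)
  classical
  let φ : Gal(SeparableClosure k/k) → ZMod 2 := fun σ => if σ θ = θ then 0 else 1
  have hφe : ∀ σ : Gal(SeparableClosure k/k), σ θ = θ +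
      (if φ σ = 0 then 0 else algebraMap k (SeparableClosure k) δ) := by
    intro σ
    by_cases hσ : σ θ = θ
    · have : φ σ = 0 := if_pos hσ
      rw [if_pos this, add_zero, hσ]
    · have : φ σ = 1 := if_neg hσ
      rw [this, if_neg one_ne_zero]
      exact (hconj σ).resolve_left hσ
  have hne : θ + algebraMap k (SeparableClosure k) δ ≠ θ := by
    intro h
    exact hδ' (by simpa using h)
  have hmul : ∀ σ τ, φ (σ * τ) = φ σ + φ τ := by
    intro σ τ
    have hcase : ∀ ρ : Gal(SeparableClosure k/k), (φ ρ = 0 ∧ ρ θ = θ) ∨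
        (φ ρ = 1 ∧ ρ θ = θ + algebraMap k (SeparableClosure k) δ) := by
      intro ρ
      by_cases hρ : ρ θ = θ
      · exact Or.inl ⟨if_pos hρ, hρ⟩
      · exact Or.inr ⟨if_neg hρ, (hconj ρ).resolve_left hρ⟩
    have hval : (σ * τ) θ = σ (τ θ) := rfl
    rcases hcase σ with ⟨s1, s2⟩ | ⟨s1, s2⟩ <;> rcases hcase τ with ⟨t1, t2⟩ | ⟨t1, t2⟩
    · rw [s1, t1]
      have : φ (σ * τ) = 0 := if_pos (by rw [hval, t2, s2])
      rw [this]; rfl
    · rw [s1, t1]
      have : φ (σ * τ) = 1 := if_neg (by
        rw [hval, t2, map_add, s2, AlgEquiv.commutes]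
        exact hne)
      rw [this]; rfl
    · rw [s1, t1]
      have : φ (σ * τ) = 1 := if_neg (by
        rw [hval, t2, s2]
        exact hne)
      rw [this]; rfl
    · rw [s1, t1]
      have : φ (σ * τ) = 0 := if_pos (by
        rw [hval, t2, map_add, s2, AlgEquiv.commutes]
        linear_combination (algebraMap k (SeparableClosure k) δ) * h2)
      rw [this]; decide
  have hlc : IsLocallyConstant φ := by
    rw [IsLocallyConstant.iff_exists_open]
    intro σ
    refine ⟨(fun τ => σ⁻¹ * τ) ⁻¹' (MulAction.stabilizer Gal(SeparableClosure k/k) θ :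
      Set Gal(SeparableClosure k/k)), (stabilizer_isOpen_of_isIntegral θ).preimage
        (continuous_const_mul σ⁻¹), ?_, ?_⟩
    · show σ⁻¹ * σ ∈ MulAction.stabilizer Gal(SeparableClosure k/k) θ
      rw [inv_mul_cancel]
      exact one_mem _
    · intro τ hτ
      have h1 : (σ⁻¹ * τ) θ = θ := hτ
      have h3 : τ θ = σ θ := by
        have : σ ((σ⁻¹ * τ) θ) = σ θ := by rw [h1]
        rw [← this]
        show τ θ = (σ * (σ⁻¹ * τ)) θ
        rw [mul_inv_cancel_left]
      show (if τ θ = θ then (0 : ZMod 2) else 1) = if σ θ = θ then 0 else 1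
      rw [h3]
  have hex : ∃ σ₀ : Gal(SeparableClosure k/k), φ σ₀ ≠ 0 := by
    by_contra hcon
    push Not at hcon
    have hfix : ∀ σ : Gal(SeparableClosure k/k), σ θ = θ := by
      intro σ
      have := hφe σ
      rw [if_pos (hcon σ), add_zero] at this
      exact this
    obtain ⟨x, hx⟩ := (InfiniteGalois.mem_range_algebraMap_iff_fixed θ).2 hfix
    have h3 : a * x ^ 2 + c * (x * 1) + b * 1 ^ 2 = 0 := by
      apply (algebraMap k (SeparableClosure k)).injective
      rw [← hx] at hθ'
      simpa using hθ'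
    exact one_ne_zero (h x 1 h3).2
  obtain ⟨σ₀, hσ₀⟩ := hex
  exact not_cdZero_of_hom φ hmul hlc hσ₀

end Pool.Agent.X99.TQ
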