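import Pool.Agent.X99.TQ.A
import Pool.Agent.X99.TQ.B
import Pool.Agent.X99.TQ.C
import Pool.Agent.Y233.Cd.A

/-!
A field of characteristic two and of cohomological dimension one with a smooth intersection of two
quadrics in `ℙ⁵` without rational points.
-/

set_option autoImplicit false

open MvPolynomial Pool.Agent.Helper346.Cd Pool.Agent.Y233.Cd

namespace Pool.Agent.X99.TQ

theorem smooth_ac {k : Type} [Field k] [CharP k 2] (a : Fin 6 → k) (c : k) (h1 : a 1 ≠ 0)
    (h3 : a 3 ≠ 0) (h5 : a 5 ≠ 0) (hc : c ≠ 0) (hc1 : c ≠ 1) :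
    ∀ x : Fin 6 → AlgebraicClosure k, x ≠ 0 → aeval x (fF a c) = 0 → aeval x (gF a c) = 0 →
        LinearIndependent (AlgebraicClosure k) ![fun i => aeval x (pderiv i (fF a c)),
          fun i => aeval x (pderiv i (gF a c))] := by
  have : CharP (AlgebraicClosure k) 2 :=
    charP_of_injective_algebraMap (algebraMap k (AlgebraicClosure k)).injective 2
  exact fun x hx hf hg => smooth a c h1 h3 h5 hc hc1 x hx hf hg

/-- the statement for one field -/
def Stm (k : Type) [Field k] : Prop :=
  CharP k 2 ∧ CdLeOne Gal(SeparableClosure k/k) ∧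
    ¬ CdZero Gal(SeparableClosure k/k) ∧
    ∃ f g : MvPolynomial (Fin 6) k, f.IsHomogeneous 2 ∧ g.IsHomogeneous 2 ∧
      (∀ x : Fin 6 → AlgebraicClosure k, x ≠ 0 → aeval x f = 0 → aeval x g = 0 →
        LinearIndependent (AlgebraicClosure k) ![fun i => aeval x (pderiv i f),
          fun i => aeval x (pderiv i g)]) ∧
      ∀ x : Fin 6 → k, eval x f = 0 → x = 0

theorem stm_of {k : Type} [Field k] [hk : CharP k 2] (hcd : CdLeOne Gal(SeparableClosure k/k))
    (A : Fin 6 → k) (c : k) (hA0 : ∀ i, A i ≠ 0) (hc : c ≠ 0) (hc1 : c ≠ 1)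
    (han : ∀ x : Fin 6 → k, ∑ i, A i * x i ^ 2 + c * (x 0 * x 1 + x 2 * x 3 + x 4 * x 5) = 0 →
      x = 0) : Stm k := by
  refine ⟨hk, hcd, ?_, fF A c, gF A c, fF_hom A c, gF_hom A c, ?_, ?_⟩
  · refine not_cdZero (A 0) c (A 1) hc ?_
    intro x y hxy
    have h1 := han ![x, y, 0, 0, 0, 0] (by
      rw [Fin.sum_univ_six]
      simp only [Matrix.cons_val]
      linear_combination hxy)
    exact ⟨by simpa using congrFun h1 0, by simpa using congrFun h1 1⟩
  · exact smooth_ac A c (hA0 1) (hA0 3) (hA0 5) hc hc1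
  · intro x hx
    apply han
    rw [← hx]
    simp [fF]

theorem main : ∃ (k : Type) (_ : Field k), Stm k := by
  have : Fact (Nat.Prime 2) := ⟨Nat.prime_two⟩
  let κ := FractionRing (MvPolynomial ℕ (ZMod 2))
  let K0 := FractionRing (Polynomial κ)
  have : CharP κ 2 :=
    charP_of_injective_algebraMap (IsFractionRing.injective (MvPolynomial ℕ (ZMod 2)) κ) 2
  have : CharP K0 2 :=
    charP_of_injective_algebraMap (IsFractionRing.injective (Polynomial κ) K0) 2
  obtain ⟨E, hE1, hE2⟩ := exists_maximal_prime_to 2 Nat.prime_two K0 (SeparableClosure K0)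
  have hCE : CharP E 2 := charP_of_injective_algebraMap (algebraMap K0 E).injective 2
  let a : Fin 6 → κ := fun i => algebraMap (MvPolynomial ℕ (ZMod 2)) κ (X (i : ℕ))
  let A : Fin 6 → E := fun i => algebraMap K0 E (algebraMap (Polynomial κ) K0 (Polynomial.C (a i)))
  let c : E := algebraMap K0 E (algebraMap (Polynomial κ) K0 Polynomial.X)
  have hA0 : ∀ i, A i ≠ 0 := by
    intro i
    have h1 : a i ≠ 0 := by
      show algebraMap (MvPolynomial ℕ (ZMod 2)) κ (X (i : ℕ)) ≠ 0
      rw [ne_eq, map_eq_zero_iff _ (IsFractionRing.injective (MvPolynomial ℕ (ZMod 2)) κ)]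
      exact MvPolynomial.X_ne_zero _
    show algebraMap K0 E (algebraMap (Polynomial κ) K0 (Polynomial.C (a i))) ≠ 0
    rw [ne_eq, map_eq_zero_iff _ (algebraMap K0 E).injective,
      map_eq_zero_iff _ (IsFractionRing.injective (Polynomial κ) K0), Polynomial.C_eq_zero]
    exact h1
  have hc : c ≠ 0 := by
    show algebraMap K0 E (algebraMap (Polynomial κ) K0 Polynomial.X) ≠ 0
    rw [ne_eq, map_eq_zero_iff _ (algebraMap K0 E).injective,
      map_eq_zero_iff _ (IsFractionRing.injective (Polynomial κ) K0)]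
    exact Polynomial.X_ne_zero
  have hc1 : c ≠ 1 := by
    show algebraMap K0 E (algebraMap (Polynomial κ) K0 Polynomial.X) ≠ 1
    intro h
    have h1 : algebraMap K0 E (algebraMap (Polynomial κ) K0 Polynomial.X) =
        algebraMap K0 E (algebraMap (Polynomial κ) K0 1) := by
      rw [h, map_one, map_one]
    have h2 := IsFractionRing.injective (Polynomial κ) K0 ((algebraMap K0 E).injective h1)
    have h3 := congrArg Polynomial.natDegree h2
    rw [Polynomial.natDegree_X, Polynomial.natDegree_one] at h3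
    exact one_ne_zero h3
  have hind : ∀ y : Fin 6 → κ, ∑ i, a i * y i ^ 2 = 0 → y = 0 := indep_pow 2 (ZMod 2) 5
  have han : ∀ x : Fin 6 → E, ∑ i, A i * x i ^ 2 + c * (x 0 * x 1 + x 2 * x 3 + x 4 * x 5) = 0 →
      x = 0 := by
    intro x hx
    by_contra hne
    exact aniso E hE1 a hind x hne hx
  exact ⟨E, inferInstance, stm_of (cdLeOne_of hE2) A c hA0 hc hc1 han⟩

end Pool.Agent.X99.TQ
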